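import Pool.Agent.Lib.MP_ecee09_co.NE.Final3
import Pool.Agent.Lib.MP_ecee09_co.NE.Top4

set_option autoImplicit false

namespace Pool.Agent.Results.MP_ecee09_co.NestedSquare

/-- Parts of exponent one or two. Every dense family of subsets of `X_n` contains `A` and
`A ∪ S^(1) ∪ ... ∪ S^(s)` for a nonempty `S` and an `A` that misses all the sets `S^(r)`.
For one part of exponent two this is the square difference conjecture. -/
theorem result (s : ℕ) (d : Fin s → ℕ) (hd : ∀ r, d r = 1 ∨ d r = 2) (δ : ℝ) (hδ : 0 < δ) :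
    ∃ n₀ : ℕ, ∀ n, n₀ ≤ n → ∀ 𝓕 : Finset (Finset (Σ r : Fin s, Fin (d r) → Fin n)),
      δ * 2 ^ Fintype.card (Σ r : Fin s, Fin (d r) → Fin n) ≤ 𝓕.card →
      ∃ S : Finset (Fin n), S.Nonempty ∧ ∃ A ∈ 𝓕,
        Disjoint A (Finset.univ.filter fun x => ∀ j, x.2 j ∈ S) ∧
        A ∪ (Finset.univ.filter fun x => ∀ j, x.2 j ∈ S) ∈ 𝓕 :=
  NE.cor_of_parts NE.rpa_all NE.lz_all s d hd δ hδ

end Pool.Agent.Results.MP_ecee09_co.NestedSquare
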